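import Pool.Agent.H80.LD.Targets

/-!
# From the inequality for the fourfold convolution to the sum over the pairings (row CVG)
-/

set_option autoImplicit false

namespace Pool.Agent.H5.LD

open Pool.Agent.H80.LD

variable {n : ℕ}

theorem pair_empty (C : Fin n → Fin n → ℝ) : pair C ∅ = 1 := by
  rw [pair]
  simp

theorem pair_insert (C : Fin n → Fin n → ℝ) (m : Fin n) (U : Finset (Fin n))
    (h : ∀ u ∈ U, m < u) :
    pair C (insert m U) = ∑ j ∈ U, C m j * pair C (U.erase j) := by
  have hm : m ∉ U := fun hh => lt_irrefl _ (h m hh)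
  have hne : (insert m U).Nonempty := Finset.insert_nonempty m U
  have hmin : (insert m U).min' hne = m := by
    refine le_antisymm (Finset.min'_le _ _ (Finset.mem_insert_self m U)) ?_
    refine Finset.le_min' _ _ _ fun y hy => ?_
    rcases Finset.mem_insert.1 hy with hy | hy
    · exact hy.ge
    · exact (h y hy).le
  rw [pair, dif_pos hne, Finset.sum_attach ((insert m U).erase ((insert m U).min' hne))
    (fun j => C ((insert m U).min' hne) j *
      pair C (((insert m U).erase ((insert m U).min' hne)).erase j)), hmin,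
    Finset.erase_insert hm]

/-- a nonempty set is its smallest element and larger elements -/
theorem split (T : Finset (Fin n)) (h : T.Nonempty) :
    ∃ (m : Fin n) (U : Finset (Fin n)), T = insert m U ∧ (∀ u ∈ U, m < u) := by
  refine ⟨T.min' h, T.erase (T.min' h), (Finset.insert_erase (T.min'_mem h)).symm, ?_⟩
  intro u hu
  have h1 := Finset.mem_erase.1 hu
  exact lt_of_le_of_ne (T.min'_le u h1.2) (Ne.symm h1.1)

theorem cv_comm (a b : Finset (Fin n) → ℝ) (T : Finset (Fin n)) : cv a b T = cv b a T := by
  unfold cv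
  refine Finset.sum_nbij' (fun U => T \ U) (fun U => T \ U) ?_ ?_ ?_ ?_ ?_
  · intro U _
    exact Finset.mem_powerset.2 Finset.sdiff_subset
  · intro U _
    exact Finset.mem_powerset.2 Finset.sdiff_subset
  · intro U hU
    exact Finset.sdiff_sdiff_eq_self (Finset.mem_powerset.1 hU)
  · intro U hU
    exact Finset.sdiff_sdiff_eq_self (Finset.mem_powerset.1 hU)
  · intro U hU
    rw [Finset.sdiff_sdiff_eq_self (Finset.mem_powerset.1 hU), mul_comm]

theorem cv_rec (C : Fin n → Fin n → ℝ) (m : Fin n) (T : Finset (Fin n)) (h : ∀ u ∈ T, m < u) :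
    cv (pair C) (pair C) (insert m T) =
      2 * ∑ j ∈ T, C m j * cv (pair C) (pair C) (T.erase j) := by
  have hm : m ∉ T := fun hh => lt_irrefl _ (h m hh)
  have e1 : ∑ U ∈ T.powerset, pair C (insert m U) * pair C (T \ U) =
      ∑ j ∈ T, C m j * cv (pair C) (pair C) (T.erase j) := by
    have s1 : ∀ U ∈ T.powerset, pair C (insert m U) * pair C (T \ U) =
        ∑ j ∈ T, if j ∈ U then C m j * pair C (U.erase j) * pair C (T \ U) else 0 := by
      intro U hU
      have hU1 := Finset.mem_powerset.1 hU
      rw [pair_insert C m U (fun u hu => h u (hU1 hu)), Finset.sum_mul, ← Finset.sum_filter]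
      refine Finset.sum_congr ?_ fun _ _ => rfl
      ext j
      rw [Finset.mem_filter]
      exact ⟨fun hj => ⟨hU1 hj, hj⟩, fun hj => hj.2⟩
    rw [Finset.sum_congr rfl s1, Finset.sum_comm]
    refine Finset.sum_congr rfl fun j hj => ?_
    have hjn : j ∉ T.erase j := Finset.notMem_erase j T
    rw [← Finset.insert_erase hj, Finset.sum_powerset_insert hjn, Finset.insert_erase hj]
    have z1 : ∑ t ∈ (T.erase j).powerset,
        (if j ∈ t then C m j * pair C (t.erase j) * pair C (T \ t) else 0) = 0 := by
      refine Finset.sum_eq_zero fun t ht => ?_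
      rw [if_neg]
      exact fun hjt => hjn (Finset.mem_powerset.1 ht hjt)
    rw [z1, zero_add]
    unfold cv
    rw [Finset.mul_sum]
    refine Finset.sum_congr rfl fun t ht => ?_
    have hjt : j ∉ t := fun hjt => hjn (Finset.mem_powerset.1 ht hjt)
    rw [if_pos (Finset.mem_insert_self j t), Finset.erase_insert hjt, mul_assoc]
    have e3 : T \ insert j t = T.erase j \ t := by
      ext x
      simp only [Finset.mem_sdiff, Finset.mem_insert, Finset.mem_erase]
      tauto
    rw [e3]
  have e2 : ∑ U ∈ T.powerset, pair C U * pair C (insert m T \ U) =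
      ∑ U ∈ T.powerset, pair C (insert m U) * pair C (T \ U) := by
    refine Finset.sum_nbij' (fun U => T \ U) (fun U => T \ U) ?_ ?_ ?_ ?_ ?_
    · intro U _
      exact Finset.mem_powerset.2 Finset.sdiff_subset
    · intro U _
      exact Finset.mem_powerset.2 Finset.sdiff_subset
    · intro U hU
      exact Finset.sdiff_sdiff_eq_self (Finset.mem_powerset.1 hU)
    · intro U hU
      exact Finset.sdiff_sdiff_eq_self (Finset.mem_powerset.1 hU)
    · intro U hU
      have hU1 := Finset.mem_powerset.1 hU
      rw [Finset.sdiff_sdiff_eq_self hU1, mul_comm,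
        Finset.insert_sdiff_of_notMem T (fun hh => hm (hU1 hh))]
  have e4 : ∑ U ∈ T.powerset, pair C (insert m U) * pair C (insert m T \ insert m U) =
      ∑ U ∈ T.powerset, pair C (insert m U) * pair C (T \ U) := by
    refine Finset.sum_congr rfl fun U hU => ?_
    have e5 : insert m T \ insert m U = T \ U := by
      ext x
      simp only [Finset.mem_sdiff, Finset.mem_insert]
      constructor
      · rintro ⟨h1 | h1, h2⟩
        · exact absurd (Or.inl h1) h2
        · exact ⟨h1, fun h3 => h2 (Or.inr h3)⟩
      · rintro ⟨h1, h2⟩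
        refine ⟨Or.inr h1, ?_⟩
        rintro (h3 | h3)
        · exact hm (h3 ▸ h1)
        · exact h2 h3
    rw [e5]
  unfold cv at *
  rw [Finset.sum_powerset_insert hm, e2, e4, e1]
  ring

/-- the convolution square of the sum over the pairings -/
theorem cv_sq (C : Fin n → Fin n → ℝ) (T : Finset (Fin n)) :
    cv (pair C) (pair C) T = √2 ^ T.card * pair C T := by
  induction T using Finset.strongInduction with
  | H T ih =>
    rcases Finset.eq_empty_or_nonempty T with h | h
    · rw [h]
      unfold cv
      rw [Finset.powerset_empty, Finset.sum_singleton, Finset.sdiff_empty, pair_empty]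
      simp
    · obtain ⟨m, U, hT, hU⟩ := split T h
      have hm : m ∉ U := fun hh => lt_irrefl _ (hU m hh)
      rw [hT, cv_rec C m U hU, pair_insert C m U hU, Finset.mul_sum, Finset.mul_sum]
      refine Finset.sum_congr rfl fun j hj => ?_
      have h1 : U.erase j ⊂ T := by
        rw [hT]
        exact (Finset.erase_ssubset hj).trans (Finset.ssubset_insert hm)
      rw [ih _ h1, Finset.card_insert_of_notMem hm, ← Finset.card_erase_add_one hj, pow_succ,
        pow_succ]
      have h2 : √2 * √2 = (2 : ℝ) := Real.mul_self_sqrt (by norm_num)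
      linear_combination (-(√2 ^ (U.erase j).card * C m j * pair C (U.erase j))) * h2

theorem cv_four (C : Fin n → Fin n → ℝ) (T : Finset (Fin n)) :
    cv (cv (pair C) (pair C)) (cv (pair C) (pair C)) T = 2 ^ T.card * pair C T := by
  have h2 : √2 * √2 = (2 : ℝ) := Real.mul_self_sqrt (by norm_num)
  have h1 : cv (cv (pair C) (pair C)) (cv (pair C) (pair C)) T =
      √2 ^ T.card * cv (pair C) (pair C) T := by
    show ∑ U ∈ T.powerset, cv (pair C) (pair C) U * cv (pair C) (pair C) (T \ U) =
      √2 ^ T.card * ∑ U ∈ T.powerset, pair C U * pair C (T \ U)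
    rw [Finset.mul_sum]
    refine Finset.sum_congr rfl fun U hU => ?_
    rw [cv_sq, cv_sq, ← Finset.card_sdiff_add_card_eq_card (Finset.mem_powerset.1 hU), pow_add]
    ring
  rw [h1, cv_sq, ← mul_assoc, ← mul_pow, h2]

/-- the inner terms of a convolution -/
def inn (a b : Finset (Fin n) → ℝ) (T : Finset (Fin n)) : ℝ :=
  ∑ U ∈ (T.powerset.erase ∅).erase T, a U * b (T \ U)

theorem cv_eq (a b : Finset (Fin n) → ℝ) (T : Finset (Fin n)) (h : T.Nonempty) :
    cv a b T = a ∅ * b T + a T * b ∅ + inn a b T := by
  unfold cv inn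
  have h1 : (∅ : Finset (Fin n)) ∈ T.powerset := Finset.empty_mem_powerset T
  have h2 : T ∈ T.powerset.erase ∅ :=
    Finset.mem_erase.2 ⟨h.ne_empty, Finset.mem_powerset_self T⟩
  rw [← Finset.add_sum_erase _ _ h1, ← Finset.add_sum_erase _ _ h2, Finset.sdiff_empty,
    Finset.sdiff_self]
  ring

theorem cv_empty (a b : Finset (Fin n) → ℝ) : cv a b ∅ = a ∅ * b ∅ := by
  unfold cv
  rw [Finset.powerset_empty, Finset.sum_singleton, Finset.sdiff_empty]

theorem four_eq (a : Finset (Fin n) → ℝ) (ha : a ∅ = 1) (T : Finset (Fin n))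
    (h : T.Nonempty) :
    cv (cv a a) (cv a a) T = 4 * a T + 2 * inn a a T + inn (cv a a) (cv a a) T := by
  rw [cv_eq (cv a a) (cv a a) T h, cv_empty, cv_eq a a T h, ha]
  ring

theorem inn_mem {U T : Finset (Fin n)} (hU : U ∈ (T.powerset.erase ∅).erase T) :
    U ⊂ T ∧ T \ U ⊂ T := by
  rw [Finset.mem_erase, Finset.mem_erase, Finset.mem_powerset] at hU
  have h1 : U ⊂ T := Finset.ssubset_iff_subset_ne.2 ⟨hU.2.2, hU.1⟩
  refine ⟨h1, Finset.ssubset_iff_subset_ne.2 ⟨Finset.sdiff_subset, fun h2 => hU.2.1 ?_⟩⟩
  rw [Finset.sdiff_eq_self_iff_disjoint] at h2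
  exact Finset.disjoint_self_iff_empty U |>.1 (h2.mono_left hU.2.2)

theorem inn_mono (a b : Finset (Fin n) → ℝ) (T : Finset (Fin n))
    (ha : ∀ U, U ⊂ T → 0 ≤ a U) (hab : ∀ U, U ⊂ T → a U ≤ b U) : inn a a T ≤ inn b b T := by
  unfold inn
  refine Finset.sum_le_sum fun U hU => ?_
  have h1 := inn_mem hU
  exact mul_le_mul (hab _ h1.1) (hab _ h1.2) (ha _ h1.2) ((ha _ h1.1).trans (hab _ h1.1))

theorem cv_nonneg (a : Finset (Fin n) → ℝ) (ha : ∀ U, 0 ≤ a U) (T : Finset (Fin n)) :
    0 ≤ cv a a T :=
  Finset.sum_nonneg fun _ _ => mul_nonneg (ha _) (ha _)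

theorem cv_mono (a b : Finset (Fin n) → ℝ) (ha : ∀ U, 0 ≤ a U) (T : Finset (Fin n))
    (hab : ∀ U, U ⊆ T → a U ≤ b U) : cv a a T ≤ cv b b T := by
  unfold cv
  refine Finset.sum_le_sum fun U hU => ?_
  have h1 := hab U (Finset.mem_powerset.1 hU)
  exact mul_le_mul h1 (hab _ Finset.sdiff_subset) (ha _) ((ha _).trans h1)

theorem pair_nonneg (C : Fin n → Fin n → ℝ) (hC : ∀ i j, i ≠ j → 0 ≤ C i j)
    (T : Finset (Fin n)) : 0 ≤ pair C T := by
  induction T using Finset.strongInduction with
  | H T ih =>
    rcases Finset.eq_empty_or_nonempty T with h | h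
    · rw [h, pair_empty]
      norm_num
    · obtain ⟨m, U, hT, hU⟩ := split T h
      have hm : m ∉ U := fun hh => lt_irrefl _ (hU m hh)
      rw [hT, pair_insert C m U hU]
      refine Finset.sum_nonneg fun j hj => mul_nonneg (hC m j (hU j hj).ne) (ih _ ?_)
      rw [hT]
      exact (Finset.erase_ssubset hj).trans (Finset.ssubset_insert hm)

theorem pf_CVG : T_CVG := by
  intro n C a ha0 ha1 ha2 hodd hfour T
  have hC : ∀ i j, i ≠ j → 0 ≤ C i j := fun i j hij => by
    rw [← ha2 i j hij]
    exact ha0 _
  induction T using Finset.strongInduction with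
  | H T ih =>
    rcases Finset.eq_empty_or_nonempty T with h | h
    · rw [h, pair_empty, ha1]
    · rcases Nat.even_or_odd T.card with he | ho
      · rcases Nat.lt_or_ge 2 T.card with h3 | h3
        · have h4 := hfour T
          rw [four_eq a ha1 T h] at h4
          have h5 := cv_four C T
          rw [four_eq (pair C) (pair_empty C) T h] at h5
          have h6 : inn a a T ≤ inn (pair C) (pair C) T :=
            inn_mono a (pair C) T (fun U _ => ha0 U) ih
          have h7 : inn (cv a a) (cv a a) T ≤
              inn (cv (pair C) (pair C)) (cv (pair C) (pair C)) T :=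
            inn_mono _ _ T (fun U _ => cv_nonneg a ha0 U) fun U hU =>
              cv_mono a (pair C) ha0 U fun V hV => ih V (lt_of_le_of_lt hV hU)
          have h8 : (8 : ℝ) ≤ 2 ^ T.card := by
            have h9 : (2 : ℝ) ^ 3 ≤ 2 ^ T.card := pow_le_pow_right₀ (by norm_num) h3
            linarith
          by_contra hcon
          rw [not_le] at hcon
          nlinarith
        · have hc : T.card = 2 := by
            have h9 : 0 < T.card := h.card_pos
            obtain ⟨k, hk⟩ := he
            omega
          obtain ⟨m, U, hT, hU⟩ := split T h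
          have hm : m ∉ U := fun hh => lt_irrefl _ (hU m hh)
          rw [hT, Finset.card_insert_of_notMem hm] at hc
          obtain ⟨j, hj⟩ := Finset.card_eq_one.1 (Nat.succ.inj hc)
          rw [hT, pair_insert C m U hU, hj, Finset.sum_singleton, Finset.erase_singleton,
            pair_empty, mul_one]
          have hmj : m ≠ j := (hU j (hj ▸ Finset.mem_singleton_self j)).ne
          exact (ha2 m j hmj).le
      · rw [hodd T ho]
        exact pair_nonneg C hC T

end Pool.Agent.H5.LD
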